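import Pool.Agent.W69.NI.Moment

/-!
Rounding `A + (b cᵀ - A) / a` to a sign matrix with a small error in operator norm.
-/

set_option autoImplicit false

namespace Pool.Agent.W69.NI

open Finset Matrix

theorem schur {n : ℕ} (D : Fin n → Fin n → ℝ) (r : ℝ) (s : Fin n → ℝ)
    (hr : ∀ i, ∑ j, |D i j| ≤ r) (hs : ∀ j, ∑ i, |D i j| ≤ s j) (hr0 : 0 ≤ r) (y : Fin n → ℝ) :
    ∑ i, (∑ j, D i j * y j) ^ 2 ≤ r * ∑ j, s j * y j ^ 2 := by
  have h1 : ∀ i, (∑ j, D i j * y j) ^ 2 ≤ r * ∑ j, |D i j| * y j ^ 2 := by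
    intro i
    have h2 : (∑ j, D i j * y j) ^ 2 ≤ (∑ j, |D i j|) * ∑ j, |D i j| * y j ^ 2 := by
      apply sum_sq_le_sum_mul_sum_of_sq_le_mul
      · intro j _; positivity
      · intro j _; positivity
      · intro j _
        rw [mul_pow, ← mul_assoc, ← sq, sq_abs]
    refine h2.trans ?_
    apply mul_le_mul_of_nonneg_right (hr i)
    exact sum_nonneg fun j _ => by positivity
  calc ∑ i, (∑ j, D i j * y j) ^ 2 ≤ ∑ i, r * ∑ j, |D i j| * y j ^ 2 := sum_le_sum fun i _ => h1 i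
    _ = r * ∑ j, (∑ i, |D i j|) * y j ^ 2 := by
        rw [← mul_sum, sum_comm]
        congr 1
        exact sum_congr rfl fun j _ => by rw [sum_mul]
    _ ≤ r * ∑ j, s j * y j ^ 2 := by
        apply mul_le_mul_of_nonneg_left _ hr0
        exact sum_le_sum fun j _ => mul_le_mul_of_nonneg_right (hs j) (sq_nonneg _)

variable {n a : ℕ}

/-- block of an index -/
def blk (n a : ℕ) (i : Fin n) : Fin (n / a + 1) :=
  ⟨i / a, Nat.lt_succ_of_le (Nat.div_le_div_right i.2.le)⟩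

theorem one_hit (ha : 1 ≤ a) (i : Fin n) (c : Fin (n / a + 1)) (k : Fin a) :
    ∑ j : Fin n, (if blk n a j = c ∧ ((i : ℕ) + j) % a = k then (1 : ℝ) else 0) ≤ 1 := by
  rw [sum_boole]
  have h1 : (univ.filter fun j : Fin n => blk n a j = c ∧ ((i : ℕ) + j) % a = k).card ≤ 1 := by
    rw [card_le_one]
    intro j hj j' hj'
    rw [mem_filter] at hj hj'
    have e1 : (j : ℕ) / a = (j' : ℕ) / a := by
      have := hj.2.1.trans hj'.2.1.symm
      exact congrArg Fin.val this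
    have e2 : (j : ℕ) ≡ (j' : ℕ) [MOD a] := by
      have h : ((i : ℕ) + j) ≡ ((i : ℕ) + j') [MOD a] := by
        unfold Nat.ModEq
        rw [hj.2.2, hj'.2.2]
      exact Nat.ModEq.add_left_cancel' _ h
    have e3 : (j : ℕ) % a = (j' : ℕ) % a := e2
    apply Fin.ext
    rw [← Nat.div_add_mod (j : ℕ) a, ← Nat.div_add_mod (j' : ℕ) a, e1, e3]
  exact_mod_cast h1

variable (W : Fin n → Fin n → ℝ)

/-- the centred contribution of a block -/
noncomputable def zz (a : ℕ) (W : Fin n → Fin n → ℝ)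
    (e : Fin (n / a + 1) × Fin (n / a + 1)) (k : Fin a) : Matrix (Fin n) (Fin n) ℝ :=
  Matrix.of fun i j => if (blk n a i, blk n a j) = e then
    ((if ((i : ℕ) + j) % a = k then 1 else 0) - 1 / (a : ℝ)) * W i j else 0

/-- its symmetric dilation -/
noncomputable def ZZ (a : ℕ) (W : Fin n → Fin n → ℝ)
    (e : Fin (n / a + 1) × Fin (n / a + 1)) (k : Fin a) :
    Matrix (Fin n ⊕ Fin n) (Fin n ⊕ Fin n) ℝ :=
  Matrix.fromBlocks 0 (zz a W e k) (zz a W e k)ᵀ 0

theorem ZZ_symm (e : Fin (n / a + 1) × Fin (n / a + 1)) (k : Fin a) :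
    (ZZ a W e k)ᵀ = ZZ a W e k := by
  unfold ZZ
  rw [Matrix.fromBlocks_transpose, Matrix.transpose_transpose, Matrix.transpose_zero]

theorem sum_hit (ha : 1 ≤ a) (m : ℕ) : ∑ k : Fin a, (if m % a = k then (1 : ℝ) else 0) = 1 := by
  rw [sum_eq_single (⟨m % a, Nat.mod_lt _ ha⟩ : Fin a)]
  · simp
  · intro k _ hk
    rw [if_neg]
    intro h
    exact hk (Fin.ext h.symm)
  · intro h; exact absurd (mem_univ _) h

theorem ZZ_mean (ha : 1 ≤ a) (e : Fin (n / a + 1) × Fin (n / a + 1)) :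
    ∑ k, ZZ a W e k = 0 := by
  have ha0 : (a : ℝ) ≠ 0 := by positivity
  have h1 : ∑ k, zz a W e k = 0 := by
    ext i j
    rw [Matrix.sum_apply, Matrix.zero_apply]
    unfold zz
    simp only [Matrix.of_apply]
    by_cases he : (blk n a i, blk n a j) = e
    · simp only [if_pos he]
      rw [← sum_mul, sum_sub_distrib, sum_hit ha, sum_const, card_univ, Fintype.card_fin,
        nsmul_eq_mul, mul_one_div_cancel ha0, sub_self, zero_mul]
    · simp only [if_neg he]
      exact sum_const_zero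
  ext x y
  rw [Matrix.sum_apply, Matrix.zero_apply]
  rcases x with i | i <;> rcases y with j | j
  · simp [ZZ]
  · have := congrFun (congrFun h1 i) j
    rw [Matrix.sum_apply, Matrix.zero_apply] at this
    simpa [ZZ] using this
  · have := congrFun (congrFun h1 j) i
    rw [Matrix.sum_apply, Matrix.zero_apply] at this
    simpa [ZZ] using this
  · simp [ZZ]

/-- the difference of two choices in a block -/
noncomputable def DD (a : ℕ) (W : Fin n → Fin n → ℝ)
    (e : Fin (n / a + 1) × Fin (n / a + 1)) (k l : Fin a) (i j : Fin n) : ℝ :=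
  (zz a W e k - zz a W e l) i j

theorem DD_abs (hW : ∀ i j, |W i j| ≤ 2) (e : Fin (n / a + 1) × Fin (n / a + 1)) (k l : Fin a)
    (i j : Fin n) : |DD a W e k l i j| ≤ (if blk n a i = e.1 then 1 else 0) *
      (2 * (if blk n a j = e.2 ∧ ((i : ℕ) + j) % a = k then (1 : ℝ) else 0) +
        2 * (if blk n a j = e.2 ∧ ((i : ℕ) + j) % a = l then (1 : ℝ) else 0)) := by
  unfold DD zz
  rw [Matrix.sub_apply]
  simp only [Matrix.of_apply]
  by_cases he : (blk n a i, blk n a j) = e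
  · have h1 : blk n a i = e.1 := by rw [← he]
    have h2 : blk n a j = e.2 := by rw [← he]
    rw [if_pos he, if_pos he, if_pos h1, one_mul]
    simp only [h2, true_and]
    rw [← sub_mul]
    have h3 : ((if ((i : ℕ) + j) % a = k then (1 : ℝ) else 0) - 1 / (a : ℝ) -
        ((if ((i : ℕ) + j) % a = l then (1 : ℝ) else 0) - 1 / (a : ℝ))) =
        (if ((i : ℕ) + j) % a = k then (1 : ℝ) else 0) -
          (if ((i : ℕ) + j) % a = l then (1 : ℝ) else 0) := by ring
    rw [h3, abs_mul]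
    have hWij := hW i j
    have hW0 := abs_nonneg (W i j)
    split_ifs <;> norm_num <;> linarith
  · simp only [if_neg he, sub_self, abs_zero]
    have : (0:ℝ) ≤ (if blk n a i = e.1 then 1 else 0) := by split_ifs <;> norm_num
    apply mul_nonneg this
    split_ifs <;> norm_num

theorem DD_row (ha : 1 ≤ a) (hW : ∀ i j, |W i j| ≤ 2) (e : Fin (n / a + 1) × Fin (n / a + 1))
    (k l : Fin a) (i : Fin n) : ∑ j, |DD a W e k l i j| ≤ (if blk n a i = e.1 then 1 else 0) * 4 := by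
  refine (sum_le_sum fun j _ => DD_abs W hW e k l i j).trans ?_
  rw [← mul_sum, sum_add_distrib, ← mul_sum, ← mul_sum]
  have h1 := one_hit ha i e.2 k
  have h2 := one_hit ha i e.2 l
  apply mul_le_mul_of_nonneg_left (by linarith)
  split_ifs <;> norm_num

theorem DD_symm (e : Fin (n / a + 1) × Fin (n / a + 1)) (k l : Fin a) (i j : Fin n) :
    DD a W e k l i j = DD a (fun i j => W j i) (e.2, e.1) k l j i := by
  unfold DD zz
  rw [Matrix.sub_apply, Matrix.sub_apply]
  simp only [Matrix.of_apply]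
  have h1 : ((blk n a i, blk n a j) = e) ↔ ((blk n a j, blk n a i) = (e.2, e.1)) := by
    constructor
    · intro h; rw [← h]
    · intro h
      have h2 := (Prod.mk.inj h).1
      have h3 := (Prod.mk.inj h).2
      rw [h2, h3]
  rw [Nat.add_comm (i : ℕ) j]
  by_cases he : (blk n a i, blk n a j) = e
  · rw [if_pos he, if_pos he, if_pos (h1.1 he), if_pos (h1.1 he)]
  · rw [if_neg he, if_neg he, if_neg (fun h => he (h1.2 h)), if_neg (fun h => he (h1.2 h))]

theorem DD_col (ha : 1 ≤ a) (hW : ∀ i j, |W i j| ≤ 2) (e : Fin (n / a + 1) × Fin (n / a + 1))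
    (k l : Fin a) (j : Fin n) : ∑ i, |DD a W e k l i j| ≤ (if blk n a j = e.2 then 1 else 0) * 4 := by
  have h := DD_row (fun i j => W j i) ha (fun i j => hW j i) (e.2, e.1) k l j
  refine le_trans (le_of_eq ?_) h
  exact sum_congr rfl fun i _ => by rw [DD_symm]

theorem block_sum (y : Fin n → ℝ) :
    ∑ e : Fin (n / a + 1) × Fin (n / a + 1), ∑ j, (if blk n a j = e.2 then (1 : ℝ) else 0) * y j ^ 2 =
      ((n / a + 1 : ℕ) : ℝ) * ∑ j, y j ^ 2 := by
  rw [Fintype.sum_prod_type]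
  have h1 : ∀ c : Fin (n / a + 1), ∑ d : Fin (n / a + 1), ∑ j : Fin n,
      (if blk n a j = ((c, d) : Fin (n / a + 1) × Fin (n / a + 1)).2 then (1 : ℝ) else 0) * y j ^ 2 =
      ∑ j, y j ^ 2 := by
    intro c
    rw [sum_comm]
    refine sum_congr rfl fun j _ => ?_
    rw [← sum_mul]
    simp
  rw [sum_congr rfl fun c _ => h1 c, sum_const, card_univ, Fintype.card_fin, nsmul_eq_mul]

theorem DD_sq (ha : 1 ≤ a) (hW : ∀ i j, |W i j| ≤ 2)
    (g h : Fin (n / a + 1) × Fin (n / a + 1) → Fin a) (y : Fin n → ℝ) :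
    ∑ e, ∑ i, (∑ j, DD a W e (g e) (h e) i j * y j) ^ 2 ≤
      16 * ((n / a + 1 : ℕ) : ℝ) * ∑ j, y j ^ 2 := by
  have h1 : ∀ e, ∑ i, (∑ j, DD a W e (g e) (h e) i j * y j) ^ 2 ≤
      4 * ∑ j, ((if blk n a j = e.2 then 1 else 0) * 4) * y j ^ 2 := by
    intro e
    refine schur _ 4 _ (fun i => (DD_row W ha hW e (g e) (h e) i).trans ?_)
      (fun j => DD_col W ha hW e (g e) (h e) j) (by norm_num) y
    split_ifs <;> norm_num
  refine (sum_le_sum fun e _ => h1 e).trans (le_of_eq ?_)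
  have h2 : ∀ e : Fin (n / a + 1) × Fin (n / a + 1),
      4 * ∑ j, ((if blk n a j = e.2 then (1 : ℝ) else 0) * 4) * y j ^ 2 =
      16 * ∑ j, (if blk n a j = e.2 then (1 : ℝ) else 0) * y j ^ 2 := by
    intro e
    rw [mul_sum, mul_sum]
    exact sum_congr rfl fun j _ => by ring
  rw [sum_congr rfl fun e _ => h2 e, ← mul_sum, block_sum]
  ring

theorem ZZ_sq (ha : 1 ≤ a) (hW : ∀ i j, |W i j| ≤ 2)
    (g h : Fin (n / a + 1) × Fin (n / a + 1) → Fin a) (x : Fin n ⊕ Fin n → ℝ) :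
    ∑ e, ∑ i, ((ZZ a W e (g e) - ZZ a W e (h e)) *ᵥ x) i ^ 2 ≤
      (16 * ((n / a + 1 : ℕ) : ℝ)) * ∑ i, x i ^ 2 := by
  have h1 : ∀ e, ∑ i, ((ZZ a W e (g e) - ZZ a W e (h e)) *ᵥ x) i ^ 2 =
      ∑ i, (∑ j, DD a W e (g e) (h e) i j * x (Sum.inr j)) ^ 2 +
        ∑ j, (∑ i, DD a (fun i j => W j i) (e.2, e.1) (g e) (h e) j i * x (Sum.inl i)) ^ 2 := by
    intro e
    rw [Fintype.sum_sum_type]
    congr 1
    · refine sum_congr rfl fun i _ => ?_
      congr 1
      unfold Matrix.mulVec dotProduct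
      rw [Fintype.sum_sum_type]
      simp [ZZ, DD]
    · refine sum_congr rfl fun i _ => ?_
      congr 1
      unfold Matrix.mulVec dotProduct
      rw [Fintype.sum_sum_type]
      have : ∀ j, DD a (fun i j => W j i) (e.2, e.1) (g e) (h e) i j =
          DD a W e (g e) (h e) j i := fun j => (DD_symm W e (g e) (h e) j i).symm
      simp only [this]
      simp [ZZ, DD]
  rw [sum_congr rfl fun e _ => h1 e, sum_add_distrib, Fintype.sum_sum_type, mul_add, add_comm]
  have h2 := DD_sq W ha hW g h (fun j => x (Sum.inr j))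
  have h3 := DD_sq (fun i j => W j i) ha (fun i j => hW j i) (fun e => g (e.2, e.1))
    (fun e => h (e.2, e.1)) (fun j => x (Sum.inl j))
  have h4 : ∑ e : Fin (n / a + 1) × Fin (n / a + 1),
      ∑ j, (∑ i, DD a (fun i j => W j i) (e.2, e.1) (g e) (h e) j i * x (Sum.inl i)) ^ 2 =
      ∑ e : Fin (n / a + 1) × Fin (n / a + 1),
      ∑ j, (∑ i, DD a (fun i j => W j i) e (g (e.2, e.1)) (h (e.2, e.1)) j i * x (Sum.inl i)) ^ 2 := by
    rw [← (Equiv.prodComm (Fin (n / a + 1)) (Fin (n / a + 1))).sum_comp (fun e =>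
      ∑ j, (∑ i, DD a (fun i j => W j i) e (g (e.2, e.1)) (h (e.2, e.1)) j i * x (Sum.inl i)) ^ 2)]
    rfl
  rw [h4]
  linarith

/-- rounding -/
theorem rounding (ha : 1 ≤ a) (A : Fin n → Fin n → ℝ) (b c : Fin n → ℝ)
    (hA : ∀ i j, A i j = 1 ∨ A i j = -1) (hb : ∀ i, b i = 1 ∨ b i = -1)
    (hc : ∀ i, c i = 1 ∨ c i = -1) (p : ℕ) (hp : 1 ≤ p) :
    ∃ X : Fin n → Fin n → ℝ, (∀ i j, X i j = 1 ∨ X i j = -1) ∧ ∀ y : Fin n → ℝ,
      ∑ i, (∑ j, (X i j - (A i j + (b i * c j - A i j) / a)) * y j) ^ 2 ≤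
        (p * (16 * ((n / a + 1 : ℕ) : ℝ)) * ((2 * n : ℕ) : ℝ) ^ (1 / (p : ℝ))) * ∑ j, y j ^ 2 := by
  set W : Fin n → Fin n → ℝ := fun i j => b i * c j - A i j with hWdef
  have hW : ∀ i j, |W i j| ≤ 2 := by
    intro i j
    rw [hWdef]
    beta_reduce
    rcases hA i j with h1 | h1 <;> rcases hb i with h2 | h2 <;> rcases hc j with h3 | h3 <;>
      rw [h1, h2, h3] <;> norm_num
  have : Nonempty (Fin a) := ⟨⟨0, ha⟩⟩
  obtain ⟨g, hg⟩ := exists_choice (ZZ a W) (ZZ_symm W) (ZZ_mean W ha)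
    (16 * ((n / a + 1 : ℕ) : ℝ)) (by positivity) (ZZ_sq W ha hW) p hp
  refine ⟨fun i j => A i j + (if ((i : ℕ) + j) % a = g (blk n a i, blk n a j) then 1 else 0) * W i j,
    fun i j => ?_, fun y => ?_⟩
  · beta_reduce
    split_ifs
    · rw [hWdef]
      beta_reduce
      rcases hA i j with h1 | h1 <;> rcases hb i with h2 | h2 <;> rcases hc j with h3 | h3 <;>
        rw [h1, h2, h3] <;> norm_num
    · rw [zero_mul, add_zero]; exact hA i j
  · have h1 := hg (Sum.elim (fun _ => 0) y)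
    rw [Fintype.sum_sum_type, Fintype.sum_sum_type] at h1
    simp only [Sum.elim_inl, Sum.elim_inr] at h1
    have h2 : ∑ _i : Fin n, (0 : ℝ) ^ 2 = 0 := by simp
    rw [h2, zero_add] at h1
    have h3 : Fintype.card (Fin n ⊕ Fin n) = 2 * n := by
      rw [Fintype.card_sum, Fintype.card_fin]; ring
    rw [h3] at h1
    refine le_trans ?_ h1
    have h4 : 0 ≤ ∑ i : Fin n, (RR (ZZ a W) g *ᵥ Sum.elim (fun _ => 0) y) (Sum.inr i) ^ 2 :=
      sum_nonneg fun _ _ => sq_nonneg _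
    refine le_trans (le_of_eq ?_) (le_add_of_nonneg_right h4)
    refine sum_congr rfl fun i _ => ?_
    congr 1
    unfold Matrix.mulVec dotProduct
    rw [Fintype.sum_sum_type]
    simp only [Sum.elim_inl, Sum.elim_inr, mul_zero, sum_const_zero, zero_add]
    refine sum_congr rfl fun j _ => ?_
    congr 1
    unfold RR
    rw [Matrix.sum_apply, sum_eq_single (blk n a i, blk n a j)]
    · simp only [ZZ, zz, Matrix.fromBlocks_apply₁₂, Matrix.of_apply, if_true]
      rw [hWdef]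
      beta_reduce
      ring
    · intro e _ he
      simp only [ZZ, zz, Matrix.fromBlocks_apply₁₂, Matrix.of_apply]
      rw [if_neg (fun h => he h.symm)]
    · intro h; exact absurd (mem_univ _) h

end Pool.Agent.W69.NI
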