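import Pool.Agent.W69.NI.Step
import Pool.Agent.W69.MD.Iter

/-!
Sign matrices of every large order `n` which are isometries up to scaling and up to a relative
error `n ^ (-1/4 + o(1))`.
-/

set_option autoImplicit false

namespace Pool.Agent.W69.NI

open Finset Matrix Pool.Agent.H108R3.Had Pool.Agent.W851.Had Pool.Agent.W69.MD

theorem NI.mono {n : ℕ} {δ δ' : ℝ} (h : NI n δ) (hd : δ ≤ δ') : NI n δ' := by
  obtain ⟨A, hA, hAA⟩ := h
  refine ⟨A, hA, fun x => (hAA x).trans ?_⟩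
  exact mul_le_mul_of_nonneg_right hd (sum_nonneg fun j _ => sq_nonneg _)

theorem ni_had {N : ℕ} (h : HasHad N) : NI N 0 := by
  obtain ⟨H, hH, hHH⟩ := h
  refine ⟨fun i j => (H j i : ℝ), fun i j => ?_, fun x => ?_⟩
  · rcases hH j i with h | h
    · left; beta_reduce; rw [h]; simp
    · right; beta_reduce; rw [h]; simp
  · have h1 : ∀ j k, ∑ i, (H j i : ℝ) * (H k i : ℝ) = if j = k then (N : ℝ) else 0 := by
      intro j k
      have h2 := congrFun (congrFun hHH j) k
      rw [Matrix.mul_apply, Matrix.smul_apply, Matrix.one_apply] at h2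
      have h3 : ((∑ i, H j i * H.transpose i k : ℤ) : ℝ) =
          (((N : ℤ) • (if j = k then (1 : ℤ) else 0) : ℤ) : ℝ) := by rw [h2]
      push_cast at h3
      by_cases e : j = k
      · rw [if_pos e]
        rw [if_pos e] at h3
        simpa using h3
      · rw [if_neg e]
        rw [if_neg e] at h3
        simpa using h3
    have h2 : ∑ i, (∑ j, (H j i : ℝ) * x j) ^ 2 = N * ∑ j, x j ^ 2 := by
      calc ∑ i, (∑ j, (H j i : ℝ) * x j) ^ 2
          = ∑ i, ∑ j, ∑ k, ((H j i : ℝ) * x j) * ((H k i : ℝ) * x k) := by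
            refine sum_congr rfl fun i _ => ?_
            rw [sq, sum_mul_sum]
        _ = ∑ j, ∑ k, (∑ i, (H j i : ℝ) * H k i) * (x j * x k) := by
            rw [sum_comm]
            refine sum_congr rfl fun j _ => ?_
            rw [sum_comm]
            refine sum_congr rfl fun k _ => ?_
            rw [sum_mul]
            refine sum_congr rfl fun i _ => ?_
            ring
        _ = N * ∑ j, x j ^ 2 := by
            rw [mul_sum]
            refine sum_congr rfl fun j _ => ?_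
            have h3 : ∀ k ∈ (univ : Finset (Fin N)), (∑ i, (H j i : ℝ) * H k i) * (x j * x k) =
                if j = k then (N : ℝ) * (x j * x k) else 0 := by
              intro k _
              rw [h1 j k]
              by_cases e : j = k
              · rw [if_pos e, if_pos e]
              · rw [if_neg e, if_neg e, zero_mul]
            rw [sum_congr rfl h3, sum_ite_eq univ j, if_pos (mem_univ j)]
            ring
    rw [h2, sub_self, abs_zero, zero_mul]

/-- error in one step -/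
noncomputable def err (p n : ℕ) : ℝ := 1 + 3 * Real.sqrt ((n + 1 : ℕ) : ℝ) +
      (5 + rho p n) * (5 * Real.sqrt ((n + 1 : ℕ) : ℝ) + (5 + rho p n))

theorem steps {p N : ℕ} (hp : 1 ≤ p) {E : ℝ} (hE0 : 0 ≤ E) (hE : ∀ n, n + 1 ≤ N → err p n ≤ E)
    (h : NI N 0) : ∀ d : ℕ, d ≤ N → 2 ^ d * E ≤ ((N - d : ℕ) : ℝ) → NI (N - d) ((2 ^ d - 1) * E) := by
  intro d
  induction d with
  | zero =>
    intro _ _
    apply NI.mono (h : NI (N - 0) 0)
    simp
  | succ d ih =>
    intro hd hle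
    have e : N - d = (N - (d + 1)) + 1 := by omega
    have h2d : (1 : ℝ) ≤ 2 ^ d := one_le_pow₀ (by norm_num)
    have h1 : (2 : ℝ) ^ d * E ≤ 2 ^ (d + 1) * E := by
      apply mul_le_mul_of_nonneg_right _ hE0
      rw [pow_succ]; linarith
    have h2 : ((N - d : ℕ) : ℝ) = ((N - (d + 1) : ℕ) : ℝ) + 1 := by
      rw [e]; push_cast; ring
    have h3 := ih (by omega) (by rw [h2]; linarith)
    rw [e] at h3
    have h4 := step p hp (δ := (2 ^ d - 1) * E) (mul_nonneg (by linarith) hE0)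
      (by
        have : (2 ^ d - 1) * E ≤ 2 ^ d * E := mul_le_mul_of_nonneg_right (by linarith) hE0
        linarith) h3
    apply h4.mono
    have h5 := hE (N - (d + 1)) (by omega)
    unfold err at h5
    have h6 : ((2 : ℝ) ^ (d + 1) - 1) * E = 2 * ((2 ^ d - 1) * E) + E := by rw [pow_succ]; ring
    rw [h6]
    linarith

theorem log_le_sqrt {x : ℝ} (hx : 0 < x) : Real.log x ≤ Real.sqrt x := by
  have h1 : 0 < Real.sqrt x := Real.sqrt_pos.2 hx
  have h2 : 0 < Real.sqrt (Real.sqrt x) := Real.sqrt_pos.2 h1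
  have h3 : Real.log x = 4 * Real.log (Real.sqrt (Real.sqrt x)) := by
    rw [Real.log_sqrt h1.le, Real.log_sqrt hx.le]; ring
  have h4 := Real.log_le_sub_one_of_pos h2
  have h5 := Real.sq_sqrt h1.le
  rw [h3]
  nlinarith [sq_nonneg (Real.sqrt (Real.sqrt x) - 2)]

/-- bound for the error -/
theorem err_le {N : ℕ} (hN : 8 ≤ N) (n : ℕ) (hn : n + 1 ≤ N) :
    err ⌈Real.log (2 * N)⌉₊ n ≤ 754 * Real.sqrt (Real.log N) *
      (Real.sqrt (Real.sqrt N) * Real.sqrt N) := by
  have hN' : (8 : ℝ) ≤ N := by exact_mod_cast hN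
  set s : ℝ := Real.sqrt N with hs
  set r : ℝ := Real.sqrt s with hr
  have hs1 : 1 ≤ s := Real.one_le_sqrt.2 (by linarith)
  have hr1 : 1 ≤ r := Real.one_le_sqrt.2 hs1
  have hr2 : r ^ 2 = s := Real.sq_sqrt (by linarith)
  have hs2 : s ^ 2 = N := Real.sq_sqrt (by linarith)
  have hlog8 : (2 : ℝ) ≤ Real.log N := by
    have h1 : Real.log 8 ≤ Real.log N := Real.log_le_log (by norm_num) hN'
    have h2 : Real.log 8 = 3 * Real.log 2 := by
      rw [show (8 : ℝ) = 2 ^ 3 by norm_num, Real.log_pow]; norm_num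
    have h3 := Real.log_two_gt_d9
    linarith
  have hll : Real.log N ≤ s := log_le_sqrt (by linarith)
  set l : ℝ := Real.sqrt (Real.log N) with hl
  have hl1 : 1 ≤ l := Real.one_le_sqrt.2 (by linarith)
  have hl2 : l ^ 2 = Real.log N := Real.sq_sqrt (by linarith)
  have hlr : l * r ≤ s := by
    have h1 : l ≤ r := by
      rw [hl, hr]; exact Real.sqrt_le_sqrt hll
    calc l * r ≤ r * r := mul_le_mul_of_nonneg_right h1 (by linarith)
      _ = s := by rw [← sq, hr2]
  set p : ℕ := ⌈Real.log (2 * N)⌉₊ with hp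
  have hlog2N : Real.log (2 * N) = Real.log 2 + Real.log N :=
    Real.log_mul (by norm_num) (by linarith)
  have hlog2N0 : 0 < Real.log (2 * N) := by
    rw [hlog2N]; have := Real.log_two_gt_d9; linarith
  have hp1 : Real.log (2 * N) ≤ p := Nat.le_ceil _
  have hp2 : (p : ℝ) ≤ 2 * l ^ 2 := by
    have h1 := Nat.ceil_lt_add_one hlog2N0.le
    rw [← hp] at h1
    have h2 := Real.log_two_lt_d9
    rw [hl2]
    linarith
  have hp0 : (0 : ℝ) < p := hlog2N0.trans_le hp1
  have hsn : Real.sqrt ((n + 1 : ℕ) : ℝ) ≤ s := by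
    rw [hs]; exact Real.sqrt_le_sqrt (by exact_mod_cast hn)
  have hsn0 : 0 ≤ Real.sqrt ((n + 1 : ℕ) : ℝ) := Real.sqrt_nonneg _
  have hpow : ((2 * n : ℕ) : ℝ) ^ (1 / (p : ℝ)) ≤ 3 := by
    have h1 : ((2 * n : ℕ) : ℝ) ≤ 2 * N := by
      have : 2 * n ≤ 2 * N := by omega
      exact_mod_cast this
    have h2 : ((2 * n : ℕ) : ℝ) ^ (1 / (p : ℝ)) ≤ (2 * (N : ℝ)) ^ (1 / (p : ℝ)) :=
      Real.rpow_le_rpow (Nat.cast_nonneg _) h1 (by positivity)
    refine h2.trans ?_
    rw [Real.rpow_def_of_pos (by linarith)]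
    have h3 : Real.log (2 * N) * (1 / (p : ℝ)) ≤ 1 := by
      rw [mul_one_div, div_le_one hp0]; exact hp1
    refine (Real.exp_le_exp.2 h3).trans ?_
    have := Real.exp_one_lt_d9
    linarith
  have hrho : rho p n ≤ 20 * l * r := by
    unfold rho
    apply Real.sqrt_le_iff.2
    refine ⟨by positivity, ?_⟩
    have h1 : (p : ℝ) * (16 * (4 * Real.sqrt ((n + 1 : ℕ) : ℝ))) * ((2 * n : ℕ) : ℝ) ^ (1 / (p : ℝ)) ≤
        (2 * l ^ 2) * (16 * (4 * s)) * 3 := by
      apply mul_le_mul _ hpow (by positivity) (by positivity)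
      apply mul_le_mul hp2 _ (by positivity) (by positivity)
      linarith
    refine h1.trans ?_
    have h2 : (20 * l * r) ^ 2 = 400 * l ^ 2 * s := by rw [mul_pow, mul_pow, hr2]; ring
    rw [h2]
    have : 0 ≤ l ^ 2 * s := by positivity
    nlinarith
  have hrho0 : 0 ≤ rho p n := Real.sqrt_nonneg _
  have h5 : 5 + rho p n ≤ 25 * (l * r) := by
    have h6 : 1 ≤ l * r := by nlinarith
    linarith
  have hlr1 : 1 ≤ l * r := by nlinarith
  unfold err
  have h7 : (5 + rho p n) * (5 * Real.sqrt ((n + 1 : ℕ) : ℝ) + (5 + rho p n)) ≤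
      25 * (l * r) * (5 * s + 25 * s) := by
    apply mul_le_mul h5 _ (by positivity) (by positivity)
    linarith
  have h8 : 1 + 3 * Real.sqrt ((n + 1 : ℕ) : ℝ) ≤ 4 * s := by linarith
  have h9 : 4 * s ≤ 4 * (l * r * s) := by
    have : s ≤ l * r * s := by nlinarith
    linarith
  calc 1 + 3 * Real.sqrt ((n + 1 : ℕ) : ℝ) +
      (5 + rho p n) * (5 * Real.sqrt ((n + 1 : ℕ) : ℝ) + (5 + rho p n))
      ≤ 4 * (l * r * s) + 25 * (l * r) * (5 * s + 25 * s) := by linarith
    _ = 754 * l * (r * s) := by ring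

/-- Hadamard orders `2 ^ t * q` for all `q ≤ n`, with very small `t` -/
theorem had_tiny : ∃ N : ℕ, ∀ n : ℕ, N ≤ n → ∃ t : ℕ, 1 ≤ t ∧
    3016 * (2 : ℝ) ^ (2 ^ t) ≤ Real.log (Real.log n) ∧ (2 : ℝ) ^ t ≤ Real.log (Real.log n) ∧
    ∀ q : ℕ, q ≤ n → HasHad (2 ^ t * q) := by
  obtain ⟨C, hC, h⟩ := main_had
  obtain ⟨a₀, ha₀⟩ := exp_le_tow C 6 hC
  refine ⟨tow (a₀ + 4) + 1, fun n hn => ?_⟩
  have hex : ∃ k, n ≤ tow k := ⟨n, (lt_tow n).le⟩
  obtain ⟨k, hk1, hk2⟩ : ∃ k, n ≤ tow k ∧ ∀ i < k, tow i < n :=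
    ⟨Nat.find hex, Nat.find_spec hex, fun i hi => not_le.1 (Nat.find_min hex hi)⟩
  have hka : a₀ + 4 < k := by
    by_contra hcon
    push Not at hcon
    have := hk1.trans (tow_mono hcon)
    omega
  obtain ⟨a, ha⟩ : ∃ a, k = a + 4 + 1 := ⟨k - 5, by omega⟩
  have haa : a₀ ≤ a := by omega
  have h1 : (tow (a + 4) : ℝ) ≤ n := by
    exact_mod_cast (hk2 (a + 4) (by omega)).le
  have h2 := log_tow (a + 2) n h1
  have h2' := log_tow a _ h2
  have h3 := ha₀ a haa
  have e : k + 1 = a + 6 := by omega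
  have hlow : Real.exp (2 * 2 ^ (C ^ (k + 1))) ≤ Real.log (Real.log n) := by
    rw [e]; exact h3.trans h2'
  have hu : 6 ≤ C ^ (k + 1) := by
    calc 6 ≤ 2 ^ 6 := by norm_num
      _ ≤ C ^ 6 := Nat.pow_le_pow_left hC 6
      _ ≤ C ^ (k + 1) := Nat.pow_le_pow_right (by omega) (by omega)
  set u := C ^ (k + 1) with hudef
  have h2u : 64 ≤ 2 ^ u := by
    calc 64 = 2 ^ 6 := by norm_num
      _ ≤ 2 ^ u := Nat.pow_le_pow_right (by norm_num) hu
  have hexp : (2 : ℝ) ^ (2 * 2 ^ u) ≤ Real.exp (2 * 2 ^ u) := by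
    have h4 : Real.exp (2 * 2 ^ u) = Real.exp 1 ^ (2 * 2 ^ u) := by
      rw [← Real.exp_nat_mul]; push_cast; ring_nf
    rw [h4]
    apply pow_le_pow_left₀ (by norm_num)
    have := Real.exp_one_gt_d9
    linarith
  refine ⟨u, by omega, ?_, ?_, fun q hq => h k q _ (hq.trans hk1) le_rfl⟩
  · refine le_trans ?_ (hexp.trans hlow)
    have h4 : (2 : ℝ) ^ (2 * 2 ^ u) = 2 ^ (2 ^ u) * 2 ^ (2 ^ u) := by
      rw [two_mul, pow_add]
    rw [h4]
    apply mul_le_mul_of_nonneg_right _ (by positivity)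
    calc (3016 : ℝ) ≤ 2 ^ 64 := by norm_num
      _ ≤ 2 ^ (2 ^ u) := pow_le_pow_right₀ (by norm_num) h2u
  · refine le_trans ?_ (hexp.trans hlow)
    apply pow_le_pow_right₀ (by norm_num)
    have : u < 2 ^ u := Nat.lt_two_pow_self
    omega

theorem main : ∃ N₀ : ℕ, ∀ n : ℕ, N₀ ≤ n → NI n
    ((n : ℝ) ^ (3 / 4 : ℝ) * Real.sqrt (Real.log n) * Real.log (Real.log n)) := by
  obtain ⟨N1, h1⟩ := had_tiny
  refine ⟨max N1 (2 ^ 32), fun n hn => ?_⟩
  have hn1 : N1 ≤ n := (le_max_left _ _).trans hn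
  have hn2 : 2 ^ 32 ≤ n := (le_max_right _ _).trans hn
  obtain ⟨t, ht1, ht, ht2, hhad⟩ := h1 n hn1
  have hn0 : (2 : ℝ) ^ 32 ≤ n := by exact_mod_cast hn2
  have hnpos : (0 : ℝ) < n := by linarith [show (0 : ℝ) < 2 ^ 32 by norm_num]
  -- logs
  have hlog1 : (1 : ℝ) ≤ Real.log n := by
    rw [Real.le_log_iff_exp_le hnpos]
    have := Real.exp_one_lt_d9
    linarith [show (3 : ℝ) ≤ 2 ^ 32 by norm_num]
  have hll : Real.log (Real.log n) ≤ Real.sqrt (Real.log n) := log_le_sqrt (by linarith)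
  set l : ℝ := Real.sqrt (Real.log n) with hl
  have hl1 : 1 ≤ l := Real.one_le_sqrt.2 hlog1
  have hl2 : l ^ 2 = Real.log n := Real.sq_sqrt (by linarith)
  set r : ℝ := Real.sqrt (Real.sqrt n) with hr
  have hsn : r ^ 2 = Real.sqrt n := Real.sq_sqrt (Real.sqrt_nonneg _)
  have hr4 : r ^ 4 = n := by
    have : r ^ 4 = (r ^ 2) ^ 2 := by ring
    rw [this, hsn, Real.sq_sqrt hnpos.le]
  have hr256 : 256 ≤ r := by
    have h2 : (256 : ℝ) ^ 4 ≤ r ^ 4 := by rw [hr4]; refine le_trans (le_of_eq ?_) hn0; norm_num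
    exact le_of_pow_le_pow_left₀ (by norm_num) (Real.sqrt_nonneg _) h2
  have hlr : Real.log n ≤ r := by
    have hrpos : 0 < r := by linarith
    set v := Real.sqrt r with hv
    have hv2 : v ^ 2 = r := Real.sq_sqrt hrpos.le
    have hvpos : 0 < v := Real.sqrt_pos.2 hrpos
    have h2 : Real.log n = 8 * Real.log v := by
      rw [← hr4, ← hv2, ← pow_mul, Real.log_pow]; norm_num
    have h3 := Real.log_le_sub_one_of_pos hvpos
    have h4 : 16 ≤ v := by
      rw [hv]; apply Real.le_sqrt_of_sq_le; linarith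
    rw [h2, ← hv2]
    nlinarith
  have hrpow : (n : ℝ) ^ (3 / 4 : ℝ) = r ^ 3 := by
    rw [← hr4, ← Real.rpow_natCast r 4, ← Real.rpow_mul (Real.sqrt_nonneg _)]
    norm_num
    exact_mod_cast Real.rpow_natCast r 3
  -- the Hadamard order
  set N : ℕ := 2 ^ t * (n / 2 ^ t + 1) with hN
  have h2t : 2 ≤ 2 ^ t := by
    calc 2 = 2 ^ 1 := rfl
      _ ≤ 2 ^ t := Nat.pow_le_pow_right (by norm_num) ht1
  have hq : n / 2 ^ t + 1 ≤ n := by
    have h3 : n / 2 ^ t ≤ n / 2 := Nat.div_le_div_left h2t (by norm_num)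
    omega
  have hNn : n ≤ N := by
    have h3 := Nat.lt_mul_div_succ n (show 0 < 2 ^ t by positivity)
    exact h3.le
  have hNn2 : N ≤ n + 2 ^ t := by
    have h3 := Nat.mul_div_le n (2 ^ t)
    rw [hN, mul_add, mul_one]
    omega
  have h2tn : (2 : ℝ) ^ t ≤ n := by
    have h3 : Real.log n ≤ n := by
      have := Real.log_le_sub_one_of_pos hnpos
      linarith
    have h4 : Real.log (Real.log n) ≤ Real.log n := by
      have := Real.log_le_sub_one_of_pos (show 0 < Real.log n by linarith)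
      linarith
    linarith
  have hN2n : (N : ℝ) ≤ 2 * n := by
    have h3 : (N : ℝ) ≤ ((n + 2 ^ t : ℕ) : ℝ) := by exact_mod_cast hNn2
    push_cast at h3
    linarith
  have hNpos : (0 : ℝ) < N := by
    have : (n : ℝ) ≤ N := by exact_mod_cast hNn
    linarith
  have hH := ni_had (hhad _ hq)
  rw [← hN] at hH
  set E : ℝ := 754 * Real.sqrt (Real.log N) * (Real.sqrt (Real.sqrt N) * Real.sqrt N) with hE
  have hE0 : 0 ≤ E := by positivity
  have hEle : E ≤ 3016 * (l * r ^ 3) := by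
    have h3 : Real.sqrt (Real.log N) ≤ Real.sqrt 2 * l := by
      rw [hl, ← Real.sqrt_mul (by norm_num)]
      apply Real.sqrt_le_sqrt
      have h4 : Real.log N ≤ Real.log (2 * n) := Real.log_le_log hNpos hN2n
      rw [Real.log_mul (by norm_num) (by linarith)] at h4
      have h5 := Real.log_two_lt_d9
      linarith
    have h4 : Real.sqrt N ≤ Real.sqrt 2 * r ^ 2 := by
      rw [hsn, ← Real.sqrt_mul (by norm_num)]
      exact Real.sqrt_le_sqrt hN2n
    have h5 : Real.sqrt (Real.sqrt N) ≤ 2 * r := by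
      have h6 : Real.sqrt 2 * r ^ 2 ≤ (2 * r) ^ 2 := by
        have h7 : Real.sqrt 2 ≤ 4 := by
          rw [Real.sqrt_le_left (by norm_num)]; norm_num
        nlinarith [sq_nonneg r]
      exact Real.sqrt_le_iff.2 ⟨by positivity, h4.trans h6⟩
    have h22 : Real.sqrt 2 * Real.sqrt 2 = 2 := Real.mul_self_sqrt (by norm_num)
    calc E ≤ 754 * (Real.sqrt 2 * l) * ((2 * r) * (Real.sqrt 2 * r ^ 2)) := by
          rw [hE]
          apply mul_le_mul _ _ (by positivity) (by positivity)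
          · exact mul_le_mul_of_nonneg_left h3 (by norm_num)
          · exact mul_le_mul h5 h4 (Real.sqrt_nonneg _) (by positivity)
      _ = 1508 * (Real.sqrt 2 * Real.sqrt 2) * (l * r ^ 3) := by ring
      _ = 3016 * (l * r ^ 3) := by rw [h22]; ring
  set d := N - n with hd
  have hd2 : d ≤ 2 ^ t := by omega
  have hNd : N - d = n := by omega
  have htot : 2 ^ d * E ≤ r ^ 3 * l * Real.log (Real.log n) := by
    have h3 : (2 : ℝ) ^ d ≤ 2 ^ (2 ^ t) := pow_le_pow_right₀ (by norm_num) hd2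
    calc 2 ^ d * E ≤ 2 ^ (2 ^ t) * (3016 * (l * r ^ 3)) :=
          mul_le_mul h3 hEle hE0 (by positivity)
      _ = (3016 * 2 ^ (2 ^ t)) * (r ^ 3 * l) := by ring
      _ ≤ Real.log (Real.log n) * (r ^ 3 * l) := mul_le_mul_of_nonneg_right ht (by positivity)
      _ = _ := by ring
  have hdelta : r ^ 3 * l * Real.log (Real.log n) ≤ n := by
    calc r ^ 3 * l * Real.log (Real.log n) ≤ r ^ 3 * l * l :=
          mul_le_mul_of_nonneg_left hll (by positivity)
      _ = r ^ 3 * Real.log n := by rw [← hl2]; ring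
      _ ≤ r ^ 3 * r := mul_le_mul_of_nonneg_left hlr (by positivity)
      _ = n := by rw [← hr4]; ring
  have hp : 1 ≤ ⌈Real.log (2 * (N : ℝ))⌉₊ := by
    apply Nat.one_le_iff_ne_zero.2
    have h3 : 0 < Real.log (2 * (N : ℝ)) := by
      apply Real.log_pos
      have h4 : (n : ℝ) ≤ N := by exact_mod_cast hNn
      linarith [show (1 : ℝ) ≤ 2 ^ 32 by norm_num]
    exact (Nat.ceil_pos.2 h3).ne'
  have hN8 : 8 ≤ N := by
    have : 8 ≤ n := le_trans (by norm_num) hn2
    omega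
  have hfin := steps hp hE0 (fun m hm => err_le hN8 m hm) hH d (by omega)
    (by rw [hNd]; exact htot.trans hdelta)
  rw [hNd] at hfin
  apply hfin.mono
  rw [hrpow]
  refine le_trans ?_ htot
  apply mul_le_mul_of_nonneg_right _ hE0
  linarith

end Pool.Agent.W69.NI
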