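import Pool.Agent.W69.NI.Trace

/-!
A moment bound for sums of independent symmetric matrices with mean zero, and the existence of a
choice with small operator norm.
-/

set_option autoImplicit false
set_option linter.unusedSectionVars false

namespace Pool.Agent.W69.NI

open Finset Matrix

variable {ι E K : Type} [Fintype ι] [DecidableEq ι] [Fintype E] [DecidableEq E] [Fintype K]

/-- exchange the coordinate `e` of `g` with `k` -/
def swp (e : E) (p : (E → K) × K) : (E → K) × K := (Function.update p.1 e p.2, p.1 e)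

theorem swp_inv (e : E) : Function.Involutive (swp (K := K) e) := by
  rintro ⟨g, k⟩
  simp [swp]

theorem swp_sum (e : E) (F : (E → K) → K → ℝ) :
    ∑ g, ∑ k, F (Function.update g e k) (g e) = ∑ g, ∑ k, F g k := by
  classical
  rw [← Fintype.sum_prod_type' (f := F),
    ← Fintype.sum_prod_type' (f := fun g k => F (Function.update g e k) (g e))]
  exact (swp_inv (K := K) e).bijective.sum_comp (fun p : (E → K) × K => F p.1 p.2)

/-- the sum of the chosen matrices -/
def RR (Z : E → K → Matrix ι ι ℝ) (g : E → K) : Matrix ι ι ℝ := ∑ e, Z e (g e)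

theorem RR_update (Z : E → K → Matrix ι ι ℝ) (g : E → K) (e : E) (k : K) :
    RR Z g - RR Z (Function.update g e k) = Z e (g e) - Z e k := by
  unfold RR
  rw [← sum_sub_distrib, sum_eq_single e]
  · rw [Function.update_self]
  · intro b _ hb
    rw [Function.update_of_ne hb, sub_self]
  · intro h; exact absurd (mem_univ e) h

theorem RR_symm {Z : E → K → Matrix ι ι ℝ} (hs : ∀ e k, (Z e k)ᵀ = Z e k) (g : E → K) :
    (RR Z g)ᵀ = RR Z g := by
  unfold RR
  rw [Matrix.transpose_sum]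
  exact sum_congr rfl fun e _ => hs e _

theorem tr_sq (D A : Matrix ι ι ℝ) (hD : Dᵀ = D) (hA : Aᵀ = A) :
    (D * D * (A * A)).trace = ∑ i, ∑ j, ((D *ᵥ fun k => A k i) j) ^ 2 := by
  have h1 : (D * D * (A * A)).trace = ((D * A)ᵀ * (D * A)).trace := by
    rw [Matrix.transpose_mul, hA, hD]
    calc (D * D * (A * A)).trace = ((D * D * A) * A).trace := by simp only [Matrix.mul_assoc]
      _ = (A * (D * D * A)).trace := Matrix.trace_mul_comm _ _
      _ = _ := by simp only [Matrix.mul_assoc]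
  rw [h1, Matrix.trace]
  refine sum_congr rfl fun i _ => ?_
  rw [Matrix.diag_apply, Matrix.mul_apply]
  refine sum_congr rfl fun j _ => ?_
  rw [Matrix.transpose_apply, sq]
  rfl

theorem tr_pow (A : Matrix ι ι ℝ) (hA : Aᵀ = A) :
    (A * A).trace = ∑ i, ∑ j, (A j i) ^ 2 := by
  rw [Matrix.trace]
  refine sum_congr rfl fun i _ => ?_
  rw [Matrix.diag_apply, Matrix.mul_apply]
  refine sum_congr rfl fun j _ => ?_
  have : A i j = A j i := by
    have := congrFun (congrFun hA j) i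
    rw [Matrix.transpose_apply] at this
    exact this
  rw [this, sq]

theorem moment_step (Z : E → K → Matrix ι ι ℝ) (hs : ∀ e k, (Z e k)ᵀ = Z e k)
    (h0 : ∀ e, ∑ k, Z e k = 0) (v : ℝ)
    (hv : ∀ (g h : E → K) (x : ι → ℝ),
      ∑ e, ∑ i, ((Z e (g e) - Z e (h e)) *ᵥ x) i ^ 2 ≤ v * ∑ i, x i ^ 2) [Nonempty K] (p : ℕ) :
    ∑ g, (RR Z g ^ (2 * (p + 1))).trace ≤
      ((2 * p + 1) * v / 2) * ∑ g, (RR Z g ^ (2 * p)).trace := by
  set c : ℝ := (Fintype.card K : ℝ) with hc
  have hc0 : 0 < c := by rw [hc]; exact_mod_cast Fintype.card_pos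
  set T : E → ℝ := fun e => ∑ g : E → K, (Z e (g e) * RR Z g ^ (2 * p + 1)).trace with hT
  have h1 : ∑ g, (RR Z g ^ (2 * (p + 1))).trace = ∑ e, T e := by
    rw [hT]
    beta_reduce
    rw [sum_comm]
    refine sum_congr rfl fun g _ => ?_
    have e1 : RR Z g ^ (2 * (p + 1)) = RR Z g * RR Z g ^ (2 * p + 1) := by
      rw [← pow_succ']
      congr 1
    rw [e1]
    conv_lhs => enter [1, 1]; unfold RR
    rw [sum_mul, Matrix.trace_sum]
  -- one coordinate
  have h2 : ∀ e, 2 * c * T e = ∑ g : E → K, ∑ k : K,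
      ((Z e (g e) - Z e k) * (RR Z g ^ (2 * p + 1) -
        RR Z (Function.update g e k) ^ (2 * p + 1))).trace := by
    intro e
    have a1 : ∑ g : E → K, ∑ k : K, (Z e (g e) * RR Z g ^ (2 * p + 1)).trace = c * T e := by
      rw [hT]
      beta_reduce
      rw [mul_sum]
      refine sum_congr rfl fun g _ => ?_
      rw [sum_const, card_univ, nsmul_eq_mul]
    have a3 : ∑ g : E → K, ∑ k : K, (Z e k * RR Z g ^ (2 * p + 1)).trace = 0 := by
      refine sum_eq_zero fun g _ => ?_
      rw [← Matrix.trace_sum, ← sum_mul, h0, zero_mul, Matrix.trace_zero]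
    have a4 : ∑ g : E → K, ∑ k : K,
        (Z e k * RR Z (Function.update g e k) ^ (2 * p + 1)).trace = c * T e := by
      rw [← a1, ← swp_sum e (fun g k => (Z e (g e) * RR Z g ^ (2 * p + 1)).trace)]
      refine sum_congr rfl fun g _ => sum_congr rfl fun k _ => ?_
      rw [Function.update_self]
    have a2 : ∑ g : E → K, ∑ k : K,
        (Z e (g e) * RR Z (Function.update g e k) ^ (2 * p + 1)).trace = 0 := by
      rw [← a3, ← swp_sum e (fun g k => (Z e k * RR Z g ^ (2 * p + 1)).trace)]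
    have a5 : ∀ (g : E → K) (k : K), ((Z e (g e) - Z e k) * (RR Z g ^ (2 * p + 1) -
        RR Z (Function.update g e k) ^ (2 * p + 1))).trace =
        (Z e (g e) * RR Z g ^ (2 * p + 1)).trace -
        (Z e (g e) * RR Z (Function.update g e k) ^ (2 * p + 1)).trace -
        (Z e k * RR Z g ^ (2 * p + 1)).trace +
        (Z e k * RR Z (Function.update g e k) ^ (2 * p + 1)).trace := by
      intro g k
      rw [sub_mul, mul_sub, mul_sub, Matrix.trace_sub, Matrix.trace_sub, Matrix.trace_sub]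
      ring
    simp only [a5, sum_add_distrib, sum_sub_distrib, a1, a2, a3, a4]
    ring
  -- the trace inequality
  have h3 : ∀ e, 2 * (2 * c * T e) ≤ (2 * p + 1) * (2 * ∑ g : E → K, ∑ k : K,
      ((Z e (g e) - Z e k) * (Z e (g e) - Z e k) * RR Z g ^ (2 * p)).trace) := by
    intro e
    rw [h2 e, mul_sum]
    have b1 : ∀ g : E → K, 2 * ∑ k : K, ((Z e (g e) - Z e k) * (RR Z g ^ (2 * p + 1) -
        RR Z (Function.update g e k) ^ (2 * p + 1))).trace ≤
        ∑ k : K, (2 * p + 1) * (((Z e (g e) - Z e k) * (Z e (g e) - Z e k) *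
          RR Z g ^ (2 * p)).trace + ((Z e (g e) - Z e k) * (Z e (g e) - Z e k) *
          RR Z (Function.update g e k) ^ (2 * p)).trace) := by
      intro g
      rw [mul_sum]
      refine sum_le_sum fun k _ => ?_
      refine le_trans (tr_step (RR_symm hs g) (RR_symm hs _) ?_ (RR_update Z g e k) p) ?_
      · rw [Matrix.transpose_sub, hs, hs]
      · apply le_of_eq
        congr 2
        rw [Matrix.trace_mul_comm, ← Matrix.mul_assoc]
    refine (sum_le_sum fun g _ => b1 g).trans (le_of_eq ?_)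
    have b2 : ∑ g : E → K, ∑ k : K, ((Z e (g e) - Z e k) * (Z e (g e) - Z e k) *
          RR Z (Function.update g e k) ^ (2 * p)).trace =
        ∑ g : E → K, ∑ k : K, ((Z e (g e) - Z e k) * (Z e (g e) - Z e k) *
          RR Z g ^ (2 * p)).trace := by
      rw [← swp_sum e (fun g k => ((Z e (g e) - Z e k) * (Z e (g e) - Z e k) *
          RR Z g ^ (2 * p)).trace)]
      refine sum_congr rfl fun g _ => sum_congr rfl fun k _ => ?_
      rw [Function.update_self]
      congr 2
      rw [← neg_sub (Z e k) (Z e (g e)), neg_mul_neg]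
    simp only [← mul_sum, sum_add_distrib, b2]
    ring
  -- the variance
  have h4 : ∀ (g : E → K) (k : K), ∑ e, ((Z e (g e) - Z e k) * (Z e (g e) - Z e k) *
      RR Z g ^ (2 * p)).trace ≤ v * (RR Z g ^ (2 * p)).trace := by
    intro g k
    have hA : (RR Z g ^ p)ᵀ = RR Z g ^ p := by rw [Matrix.transpose_pow, RR_symm hs]
    have e1 : RR Z g ^ (2 * p) = RR Z g ^ p * RR Z g ^ p := by rw [two_mul, pow_add]
    rw [e1, tr_pow _ hA, mul_sum]
    have e2 : ∀ e, ((Z e (g e) - Z e k) * (Z e (g e) - Z e k) * (RR Z g ^ p * RR Z g ^ p)).trace =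
        ∑ i, ∑ j, (((Z e (g e) - Z e k) *ᵥ fun l => (RR Z g ^ p) l i) j) ^ 2 := fun e =>
      tr_sq _ _ (by rw [Matrix.transpose_sub, hs, hs]) hA
    rw [sum_congr rfl fun e _ => e2 e, sum_comm]
    exact sum_le_sum fun i _ => hv g (fun _ => k) _
  -- conclusion
  have h5 : 2 * (2 * c * ∑ e, T e) ≤ (2 * p + 1) * (2 * (c * (v * ∑ g, (RR Z g ^ (2 * p)).trace))) := by
    calc 2 * (2 * c * ∑ e, T e) = ∑ e, 2 * (2 * c * T e) := by rw [mul_sum, mul_sum]
      _ ≤ ∑ e, (2 * p + 1) * (2 * ∑ g : E → K, ∑ k : K,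
          ((Z e (g e) - Z e k) * (Z e (g e) - Z e k) * RR Z g ^ (2 * p)).trace) :=
          sum_le_sum fun e _ => h3 e
      _ = (2 * p + 1) * (2 * ∑ g : E → K, ∑ k : K, ∑ e,
          ((Z e (g e) - Z e k) * (Z e (g e) - Z e k) * RR Z g ^ (2 * p)).trace) := by
          rw [← mul_sum, ← mul_sum, sum_comm]
          congr 2
          exact sum_congr rfl fun g _ => sum_comm
      _ ≤ (2 * p + 1) * (2 * ∑ g : E → K, ∑ k : K, v * (RR Z g ^ (2 * p)).trace) := by
          apply mul_le_mul_of_nonneg_left _ (by positivity)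
          apply mul_le_mul_of_nonneg_left _ (by positivity)
          exact sum_le_sum fun g _ => sum_le_sum fun k _ => h4 g k
      _ = _ := by
          congr 2
          simp only [sum_const, card_univ, nsmul_eq_mul, ← mul_sum]
          rw [hc]
  rw [h1]
  have h6 : c * (4 * ∑ e, T e) ≤ c * (4 * (((2 * p + 1) * v / 2) * ∑ g, (RR Z g ^ (2 * p)).trace)) := by
    linarith
  have h7 := le_of_mul_le_mul_left h6 hc0
  linarith

theorem moment (Z : E → K → Matrix ι ι ℝ) (hs : ∀ e k, (Z e k)ᵀ = Z e k)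
    (h0 : ∀ e, ∑ k, Z e k = 0) (v : ℝ) (hv0 : 0 ≤ v)
    (hv : ∀ (g h : E → K) (x : ι → ℝ),
      ∑ e, ∑ i, ((Z e (g e) - Z e (h e)) *ᵥ x) i ^ 2 ≤ v * ∑ i, x i ^ 2) [Nonempty K] (p : ℕ) :
    ∑ g, (RR Z g ^ (2 * p)).trace ≤
      (∏ j ∈ range p, ((2 * (j : ℝ) + 1) * v / 2)) *
        ((Fintype.card (E → K) : ℝ) * Fintype.card ι) := by
  induction p with
  | zero =>
    simp only [mul_zero, pow_zero, Matrix.trace_one, sum_const, card_univ, nsmul_eq_mul,
      range_zero, prod_empty, one_mul]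
    exact le_rfl
  | succ p ih =>
    refine (moment_step Z hs h0 v hv p).trans ?_
    rw [prod_range_succ]
    have h1 : 0 ≤ (2 * (p : ℝ) + 1) * v / 2 := by positivity
    calc (2 * (p : ℝ) + 1) * v / 2 * ∑ g, (RR Z g ^ (2 * p)).trace
        ≤ (2 * (p : ℝ) + 1) * v / 2 * ((∏ j ∈ range p, ((2 * (j : ℝ) + 1) * v / 2)) *
        ((Fintype.card (E → K) : ℝ) * Fintype.card ι)) := mul_le_mul_of_nonneg_left ih h1
      _ = _ := by ring

/-- a choice with small operator norm -/
theorem exists_choice (Z : E → K → Matrix ι ι ℝ) (hs : ∀ e k, (Z e k)ᵀ = Z e k)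
    (h0 : ∀ e, ∑ k, Z e k = 0) (v : ℝ) (hv0 : 0 ≤ v)
    (hv : ∀ (g h : E → K) (x : ι → ℝ),
      ∑ e, ∑ i, ((Z e (g e) - Z e (h e)) *ᵥ x) i ^ 2 ≤ v * ∑ i, x i ^ 2) [Nonempty K] (p : ℕ)
    (hp : 1 ≤ p) : ∃ g : E → K, ∀ x : ι → ℝ, ∑ i, (RR Z g *ᵥ x) i ^ 2 ≤
      (p * v * (Fintype.card ι : ℝ) ^ (1 / (p : ℝ))) * ∑ i, x i ^ 2 := by
  classical
  have hm := moment Z hs h0 v hv0 hv p
  have hprod : ∏ j ∈ range p, ((2 * (j : ℝ) + 1) * v / 2) ≤ (p * v) ^ p := by
    calc ∏ j ∈ range p, ((2 * (j : ℝ) + 1) * v / 2) ≤ ∏ j ∈ range p, ((p : ℝ) * v) := by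
          apply prod_le_prod
          · intro j _; positivity
          · intro j hj
            have h1 : (j : ℝ) + 1 ≤ p := by exact_mod_cast mem_range.1 hj
            have h2 : (2 * (j : ℝ) + 1) * v / 2 = ((j : ℝ) + 1 / 2) * v := by ring
            rw [h2]
            exact mul_le_mul_of_nonneg_right (by linarith) hv0
      _ = (p * v) ^ p := by rw [prod_const, card_range]
  have hn0 : (0 : ℝ) ≤ Fintype.card ι := Nat.cast_nonneg _
  obtain ⟨g, hg⟩ : ∃ g : E → K, (RR Z g ^ (2 * p)).trace ≤ (p * v) ^ p * Fintype.card ι := by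
    by_contra hcon
    push Not at hcon
    have h1 : ∑ _g : E → K, (p * v) ^ p * (Fintype.card ι : ℝ) <
        ∑ g : E → K, (RR Z g ^ (2 * p)).trace :=
      sum_lt_sum_of_nonempty univ_nonempty fun g _ => hcon g
    rw [sum_const, card_univ, nsmul_eq_mul] at h1
    have h2 : (∏ j ∈ range p, ((2 * (j : ℝ) + 1) * v / 2)) *
        ((Fintype.card (E → K) : ℝ) * Fintype.card ι) ≤
        (p * v) ^ p * ((Fintype.card (E → K) : ℝ) * Fintype.card ι) :=
      mul_le_mul_of_nonneg_right hprod (by positivity)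
    linarith
  refine ⟨g, fun x => norm_le_trace (RR_symm hs g) p hp _ (by positivity) (hg.trans ?_) x⟩
  have e1 : ((Fintype.card ι : ℝ) ^ (1 / (p : ℝ))) ^ p = Fintype.card ι := by
    rw [← Real.rpow_natCast, ← Real.rpow_mul hn0, one_div, inv_mul_cancel₀, Real.rpow_one]
    exact_mod_cast (by omega : p ≠ 0)
  rw [mul_pow ((p : ℝ) * v), e1]

end Pool.Agent.W69.NI
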