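import Pool.Agent.W69.NI.Block

/-!
Removing a row and a column of an almost isometric sign matrix.
-/

set_option autoImplicit false

namespace Pool.Agent.W69.NI

open Finset Matrix

/-- there is a sign matrix of order `n` which is an isometry up to scaling and up to `δ` -/
def NI (n : ℕ) (δ : ℝ) : Prop := ∃ A : Fin n → Fin n → ℝ, (∀ i j, A i j = 1 ∨ A i j = -1) ∧
  ∀ x : Fin n → ℝ, |∑ i, (∑ j, A i j * x j) ^ 2 - n * ∑ j, x j ^ 2| ≤ δ * ∑ j, x j ^ 2

/-- Euclidean norm -/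
noncomputable def nr {n : ℕ} (v : Fin n → ℝ) : ℝ := ‖(WithLp.toLp 2 v : EuclideanSpace ℝ (Fin n))‖

theorem nr_sq {n : ℕ} (v : Fin n → ℝ) : nr v ^ 2 = ∑ i, v i ^ 2 := by
  unfold nr
  rw [EuclideanSpace.norm_sq_eq]
  refine sum_congr rfl fun i _ => ?_
  rw [Real.norm_eq_abs, sq_abs]

theorem nr_nonneg {n : ℕ} (v : Fin n → ℝ) : 0 ≤ nr v := norm_nonneg _

theorem nr_add {n : ℕ} (v w : Fin n → ℝ) : nr (fun i => v i + w i) ≤ nr v + nr w := by
  unfold nr
  exact norm_add_le (WithLp.toLp 2 v : EuclideanSpace ℝ (Fin n)) (WithLp.toLp 2 w)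

theorem nr_mul {n : ℕ} (c : ℝ) (v : Fin n → ℝ) : nr (fun i => c * v i) = |c| * nr v := by
  unfold nr
  exact norm_smul c (WithLp.toLp 2 v : EuclideanSpace ℝ (Fin n))

theorem nr_le {n : ℕ} (v : Fin n → ℝ) {r : ℝ} (hr : 0 ≤ r) (h : ∑ i, v i ^ 2 ≤ r ^ 2) :
    nr v ≤ r := by
  rw [← nr_sq] at h
  exact le_of_sq_le_sq h hr

theorem sq_diff {a b t : ℝ} (ha : 0 ≤ a) (hb : 0 ≤ b) (h : |a - b| ≤ t) :
    |a ^ 2 - b ^ 2| ≤ t * (2 * b + t) := by
  have ht : 0 ≤ t := (abs_nonneg _).trans h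
  have h1 : a ^ 2 - b ^ 2 = (a - b) * (a + b) := by ring
  rw [h1, abs_mul]
  have h2 : |a + b| ≤ 2 * b + t := by
    rw [abs_of_nonneg (by linarith)]
    have := (abs_le.1 h).2
    linarith
  exact mul_le_mul h h2 (abs_nonneg _) ht

/-- the rounding error -/
noncomputable def rho (p n : ℕ) : ℝ :=
  Real.sqrt (p * (16 * (4 * Real.sqrt ((n + 1 : ℕ) : ℝ))) * ((2 * n : ℕ) : ℝ) ^ (1 / (p : ℝ)))

theorem step {n : ℕ} (p : ℕ) (hp : 1 ≤ p) {δ : ℝ} (hδ0 : 0 ≤ δ) (hδ : δ ≤ n + 1) (h : NI (n + 1) δ) :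
    NI n (2 * δ + (1 + 3 * Real.sqrt ((n + 1 : ℕ) : ℝ) +
      (5 + rho p n) * (5 * Real.sqrt ((n + 1 : ℕ) : ℝ) + (5 + rho p n)))) := by
  obtain ⟨H, hH, hHH⟩ := h
  set s : ℝ := Real.sqrt ((n + 1 : ℕ) : ℝ) with hs
  have hN1 : (1 : ℝ) ≤ ((n + 1 : ℕ) : ℝ) := by exact_mod_cast (by omega : 1 ≤ n + 1)
  have hs1 : 1 ≤ s := by rw [hs]; exact Real.one_le_sqrt.2 hN1
  have hs2 : s ^ 2 = (n : ℝ) + 1 := by
    rw [hs, Real.sq_sqrt (by linarith)]; push_cast; ring
  have hs0 : 0 < s := by linarith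
  -- the integer near `s`
  set a : ℕ := Nat.sqrt (n + 1) with ha
  have ha1 : 1 ≤ a := by
    rw [ha]; exact Nat.le_sqrt.2 (by omega)
  have ha1' : (1 : ℝ) ≤ a := by exact_mod_cast ha1
  have haN : a * a ≤ n + 1 := Nat.sqrt_le (n + 1)
  have haN2 : n + 1 < (a + 1) * (a + 1) := Nat.lt_succ_sqrt (n + 1)
  have has : (a : ℝ) ≤ s := by
    apply le_of_sq_le_sq _ hs0.le
    rw [hs2]
    have : ((a * a : ℕ) : ℝ) ≤ ((n + 1 : ℕ) : ℝ) := by exact_mod_cast haN
    push_cast at this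
    nlinarith
  have hsa : s ≤ a + 1 := by
    apply le_of_sq_le_sq _ (by positivity)
    rw [hs2]
    have : ((n + 1 : ℕ) : ℝ) ≤ (((a + 1) * (a + 1) : ℕ) : ℝ) := by exact_mod_cast haN2.le
    push_cast at this
    nlinarith
  have hsa2 : s ≤ 2 * a := by linarith
  have hblocks : ((n / a + 1 : ℕ) : ℝ) ≤ 4 * s := by
    have h1 : n / a ≤ a + 2 := by
      rw [Nat.div_le_iff_le_mul_add_pred (by omega)]
      nlinarith
    have h2 : ((n / a + 1 : ℕ) : ℝ) ≤ ((a + 3 : ℕ) : ℝ) := by exact_mod_cast (by omega : n / a + 1 ≤ a + 3)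
    push_cast at h2 ⊢
    linarith
  -- the pieces
  set A : Fin n → Fin n → ℝ := fun i j => H i.succ j.succ with hA
  set b : Fin n → ℝ := fun i => H i.succ 0 with hb
  set c : Fin n → ℝ := fun j => H 0 j.succ with hc
  set e0 : ℝ := H 0 0 with he0
  have he1 : e0 ^ 2 = 1 := by rcases hH 0 0 with h | h <;> rw [he0, h] <;> norm_num
  have he2 : |e0| = 1 := by rcases hH 0 0 with h | h <;> rw [he0, h] <;> norm_num
  obtain ⟨X, hX, hXr⟩ := rounding (n := n) ha1 A b c (fun i j => hH _ _) (fun i => hH _ _)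
    (fun i => hH _ _) p hp
  refine ⟨X, hX, fun x => ?_⟩
  set S : ℝ := ∑ j, x j ^ 2 with hS
  have hS0 : 0 ≤ S := sum_nonneg fun j _ => sq_nonneg _
  set q : ℝ := Real.sqrt S with hq
  have hq0 : 0 ≤ q := Real.sqrt_nonneg _
  have hq2 : q ^ 2 = S := Real.sq_sqrt hS0
  set L : ℝ := ∑ j, c j * x j with hL
  set v : Fin n → ℝ := fun i => ∑ j, A i j * x j with hv
  have hb2 : ∑ i, b i ^ 2 = n := by
    have : ∀ i, b i ^ 2 = 1 := fun i => by
      rcases hH i.succ 0 with h | h <;> rw [hb] <;> beta_reduce <;> rw [h] <;> norm_num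
    rw [sum_congr rfl fun i _ => this i, sum_const, card_univ, Fintype.card_fin, nsmul_eq_mul, mul_one]
  have hc2 : ∑ i, c i ^ 2 = n := by
    have : ∀ i, c i ^ 2 = 1 := fun i => by
      rcases hH 0 i.succ with h | h <;> rw [hc] <;> beta_reduce <;> rw [h] <;> norm_num
    rw [sum_congr rfl fun i _ => this i, sum_const, card_univ, Fintype.card_fin, nsmul_eq_mul, mul_one]
  have hLS : L ^ 2 ≤ n * S := by
    have := sum_mul_sq_le_sq_mul_sq univ c x
    rw [hc2] at this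
    exact this
  have hn0 : (0 : ℝ) ≤ n := Nat.cast_nonneg n
  -- test vectors
  have htest : ∀ z : ℝ, |(e0 * z + L) ^ 2 + ∑ i, (v i + b i * z) ^ 2 -
      ((n : ℝ) + 1) * (z ^ 2 + S)| ≤ δ * (z ^ 2 + S) := by
    intro z
    have h1 := hHH (Fin.cons z x)
    rw [Fin.sum_univ_succ, Fin.sum_univ_succ (f := fun j => (Fin.cons z x : Fin (n + 1) → ℝ) j ^ 2)] at h1
    simp only [Fin.sum_univ_succ (f := fun j => H _ j * (Fin.cons z x : Fin (n + 1) → ℝ) j),
      Fin.cons_zero, Fin.cons_succ] at h1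
    have h2 : ∀ i : Fin n, H i.succ 0 * z + ∑ j, H i.succ j.succ * x j = v i + b i * z := by
      intro i; rw [hv, hb]; ring
    have h3 : ∑ i : Fin n, (H i.succ 0 * z + ∑ j, H i.succ j.succ * x j) ^ 2 =
        ∑ i, (v i + b i * z) ^ 2 := sum_congr rfl fun i _ => by rw [h2]
    rw [h3] at h1
    push_cast at h1
    exact h1
  -- norm of `A x`
  have hv2 : ∑ i, v i ^ 2 ≤ 2 * s ^ 2 * S := by
    have h1 := htest 0
    have h2 := (abs_le.1 h1).2
    have h3 : ∑ i, (v i + b i * 0) ^ 2 = ∑ i, v i ^ 2 := sum_congr rfl fun i _ => by ring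
    rw [h3] at h2
    have h4 : δ * S ≤ (n + 1) * S := mul_le_mul_of_nonneg_right hδ hS0
    rw [hs2]
    nlinarith [sq_nonneg L]
  have hvn : nr v ≤ 3 / 2 * s * q := by
    apply nr_le _ (by positivity)
    refine hv2.trans ?_
    rw [← hq2]
    nlinarith [mul_nonneg (sq_nonneg s) (sq_nonneg q)]
  -- the corrected vector
  set z : ℝ := L / s with hz
  have hz2 : s ^ 2 * z ^ 2 = L ^ 2 := by rw [hz]; field_simp
  have hz3 : z ^ 2 ≤ S := by
    have h1 : s ^ 2 * z ^ 2 ≤ s ^ 2 * S := by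
      rw [hz2, hs2]
      nlinarith
    exact le_of_mul_le_mul_left h1 (by positivity)
  set m : Fin n → ℝ := fun i => v i + b i * z with hm
  have hM : |∑ i, m i ^ 2 - s ^ 2 * S| ≤ (2 * δ + 3 * s) * S := by
    have h1 := htest z
    have h2 : (e0 * z + L) ^ 2 = z ^ 2 + 2 * e0 * z * L + L ^ 2 := by
      have : (e0 * z + L) ^ 2 = e0 ^ 2 * z ^ 2 + 2 * e0 * z * L + L ^ 2 := by ring
      rw [this, he1, one_mul]
    rw [h2] at h1
    have h3 : |z ^ 2 + 2 * e0 * z * L| ≤ 3 * s * S := by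
      have h4 : z * L = s * z ^ 2 := by rw [hz]; field_simp
      have h5 : z ^ 2 + 2 * e0 * z * L = z ^ 2 * (1 + 2 * e0 * s) := by
        rw [mul_assoc (2 * e0), h4]; ring
      rw [h5, abs_mul, abs_of_nonneg (sq_nonneg z)]
      have h6 : |1 + 2 * e0 * s| ≤ 3 * s := by
        calc |1 + 2 * e0 * s| ≤ |1| + |2 * e0 * s| := abs_add_le _ _
          _ = 1 + 2 * s := by rw [abs_one, abs_mul, abs_mul, he2, abs_of_pos hs0]; norm_num
          _ ≤ 3 * s := by linarith
      calc z ^ 2 * |1 + 2 * e0 * s| ≤ S * (3 * s) :=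
            mul_le_mul hz3 h6 (abs_nonneg _) hS0
        _ = 3 * s * S := by ring
    have h7 : ∑ i, m i ^ 2 - s ^ 2 * S = (z ^ 2 + 2 * e0 * z * L + L ^ 2 + ∑ i, (v i + b i * z) ^ 2 -
        ((n : ℝ) + 1) * (z ^ 2 + S)) - (z ^ 2 + 2 * e0 * z * L) := by
      have h8 : L ^ 2 = (n + 1) * z ^ 2 := by rw [← hz2, hs2]
      rw [hs2, hm, h8]
      ring
    rw [h7]
    refine (abs_sub _ _).trans ?_
    have h9 : δ * (z ^ 2 + S) ≤ δ * (2 * S) := mul_le_mul_of_nonneg_left (by linarith) hδ0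
    linarith
  have hmn : nr m ≤ 5 / 2 * s * q := by
    apply nr_le _ (by positivity)
    have h1 := (abs_le.1 hM).2
    have h2 : (2 * δ + 3 * s) * S ≤ (5 * s ^ 2) * S := by
      apply mul_le_mul_of_nonneg_right _ hS0
      have : s ≤ s ^ 2 := by nlinarith
      rw [← hs2] at hδ
      linarith
    have h3 : ∑ i, m i ^ 2 ≤ 6 * s ^ 2 * S := by linarith
    refine h3.trans ?_
    rw [← hq2]
    nlinarith [mul_nonneg (sq_nonneg s) (sq_nonneg q)]
  -- the two errors
  set w : Fin n → ℝ := fun i => ∑ j, (X i j - (A i j + (b i * c j - A i j) / a)) * x j with hw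
  have hρ0 : 0 ≤ rho p n := Real.sqrt_nonneg _
  have hwn : nr w ≤ rho p n * q := by
    apply nr_le _ (by positivity)
    have h1 := hXr x
    refine h1.trans ?_
    rw [mul_pow, hq2]
    apply mul_le_mul_of_nonneg_right _ hS0
    unfold rho
    rw [Real.sq_sqrt (by positivity)]
    apply mul_le_mul_of_nonneg_right _ (by positivity)
    apply mul_le_mul_of_nonneg_left _ (by positivity)
    exact mul_le_mul_of_nonneg_left hblocks (by norm_num)
  set u : Fin n → ℝ := fun i => (1 / (a : ℝ) - 1 / s) * L * b i + (-(1 / (a : ℝ))) * v i with hu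
  have ha0 : (0 : ℝ) < a := by linarith
  have hun : nr u ≤ 5 * q := by
    have h1 : nr u ≤ |(1 / (a : ℝ) - 1 / s) * L| * nr b + |-(1 / (a : ℝ))| * nr v := by
      rw [← nr_mul, ← nr_mul]
      exact nr_add _ _
    have h2 : nr b ≤ s := by
      apply nr_le _ hs0.le
      rw [hb2, hs2]; linarith
    have h3 : |L| ≤ s * q := by
      apply abs_le_of_sq_le_sq _ (by positivity)
      rw [mul_pow, hs2, hq2]
      nlinarith
    have h4 : |1 / (a : ℝ) - 1 / s| ≤ 2 / s ^ 2 := by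
      have h5 : 1 / (a : ℝ) - 1 / s = (s - a) / (a * s) := by field_simp
      rw [h5, abs_of_nonneg (div_nonneg (by linarith) (by positivity)), div_le_div_iff₀ (by positivity)
        (by positivity)]
      have h6 : s - a ≤ 1 := by linarith
      have h7 : 0 ≤ s - a := by linarith
      calc (s - a) * s ^ 2 ≤ 1 * s ^ 2 := mul_le_mul_of_nonneg_right h6 (by positivity)
        _ ≤ 2 * (a * s) := by nlinarith
    have h5 : |(1 / (a : ℝ) - 1 / s) * L| * nr b ≤ 2 * q := by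
      rw [abs_mul]
      calc |1 / (a : ℝ) - 1 / s| * |L| * nr b ≤ 2 / s ^ 2 * (s * q) * s := by
            apply mul_le_mul _ h2 (nr_nonneg _) (by positivity)
            exact mul_le_mul h4 h3 (abs_nonneg _) (by positivity)
        _ = 2 * q := by field_simp
    have h6 : |-(1 / (a : ℝ))| * nr v ≤ 3 * q := by
      rw [abs_neg, abs_of_pos (by positivity)]
      calc 1 / (a : ℝ) * nr v ≤ 2 / s * (3 / 2 * s * q) := by
            apply mul_le_mul _ hvn (nr_nonneg _) (by positivity)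
            rw [div_le_div_iff₀ ha0 hs0]
            linarith
        _ = 3 * q := by field_simp
    linarith
  -- decomposition
  have hdec : ∀ i, ∑ j, X i j * x j = m i + (w i + u i) := by
    intro i
    have h1 : w i = ∑ j, X i j * x j - (v i + (b i * L - v i) / a) := by
      rw [hw, hv, hL]
      beta_reduce
      rw [mul_sum, ← sum_sub_distrib, sum_div, ← sum_add_distrib, ← sum_sub_distrib]
      refine sum_congr rfl fun j _ => ?_
      ring
    rw [h1, hm, hu]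
    beta_reduce
    rw [hz]
    ring
  have hP : |nr (fun i => ∑ j, X i j * x j) - nr m| ≤ (5 + rho p n) * q := by
    have h1 : nr (fun i => w i + u i) ≤ (5 + rho p n) * q := by
      refine (nr_add w u).trans ?_
      linarith
    have h2 : (fun i => ∑ j, X i j * x j) = fun i => m i + (w i + u i) := funext hdec
    rw [h2, abs_le]
    constructor
    · have h3 : nr m ≤ nr (fun i => m i + (w i + u i)) + nr (fun i => (-1 : ℝ) * (w i + u i)) := by
        refine le_trans (le_of_eq ?_) (nr_add _ _)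
        congr 1
        funext i
        ring
      rw [nr_mul] at h3
      have e : |(-1 : ℝ)| = 1 := by norm_num
      rw [e, one_mul] at h3
      linarith
    · have h3 := nr_add m (fun i => w i + u i)
      linarith
  have hfin := sq_diff (nr_nonneg _) (nr_nonneg _) hP
  rw [nr_sq, nr_sq] at hfin
  have h1 : (5 + rho p n) * q * (2 * nr m + (5 + rho p n) * q) ≤
      ((5 + rho p n) * (5 * s + (5 + rho p n))) * S := by
    calc (5 + rho p n) * q * (2 * nr m + (5 + rho p n) * q)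
        ≤ (5 + rho p n) * q * (2 * (5 / 2 * s * q) + (5 + rho p n) * q) := by
          apply mul_le_mul_of_nonneg_left _ (by positivity)
          linarith
      _ = ((5 + rho p n) * (5 * s + (5 + rho p n))) * q ^ 2 := by ring
      _ = _ := by rw [hq2]
  have h2 : ∑ i, (∑ j, X i j * x j) ^ 2 - n * S =
      (∑ i, (∑ j, X i j * x j) ^ 2 - ∑ i, m i ^ 2) + (∑ i, m i ^ 2 - s ^ 2 * S) + S := by
    rw [hs2]; ring
  rw [h2]
  refine (abs_add_le _ _).trans ?_
  rw [abs_of_nonneg hS0]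
  have h3 := abs_add_le (∑ i, (∑ j, X i j * x j) ^ 2 - ∑ i, m i ^ 2) (∑ i, m i ^ 2 - s ^ 2 * S)
  have h4 := hfin.trans h1
  linarith

end Pool.Agent.W69.NI
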