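import Mathlib

/-!
A trace inequality for two symmetric matrices.
-/

set_option autoImplicit false

namespace Pool.Agent.W69.NI

open Finset Matrix

theorem scal (a b : ℝ) {q r p : ℕ} (h : q + r = 2 * p) :
    a ^ q * b ^ r + a ^ r * b ^ q ≤ a ^ (2 * p) + b ^ (2 * p) := by
  have key : ∀ x y : ℝ, 0 ≤ x → 0 ≤ y →
      x ^ q * y ^ r + x ^ r * y ^ q ≤ x ^ (2 * p) + y ^ (2 * p) := by
    intro x y hx hy
    have h1 : 0 ≤ (x ^ q - y ^ q) * (x ^ r - y ^ r) := by
      rcases le_total x y with hxy | hxy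
      · exact mul_nonneg_of_nonpos_of_nonpos (sub_nonpos.2 (pow_le_pow_left₀ hx hxy q))
          (sub_nonpos.2 (pow_le_pow_left₀ hx hxy r))
      · exact mul_nonneg (sub_nonneg.2 (pow_le_pow_left₀ hy hxy q))
          (sub_nonneg.2 (pow_le_pow_left₀ hy hxy r))
    have h2 : x ^ (2 * p) = x ^ q * x ^ r := by rw [← pow_add, h]
    have h3 : y ^ (2 * p) = y ^ q * y ^ r := by rw [← pow_add, h]
    rw [h2, h3]
    nlinarith
  have h2 := key |a| |b| (abs_nonneg _) (abs_nonneg _)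
  have h3 : a ^ q * b ^ r ≤ |a| ^ q * |b| ^ r := by
    rw [← abs_pow, ← abs_pow, ← abs_mul]
    exact le_abs_self _
  have h4 : a ^ r * b ^ q ≤ |a| ^ r * |b| ^ q := by
    rw [← abs_pow, ← abs_pow, ← abs_mul]
    exact le_abs_self _
  have h5 : |a| ^ (2 * p) = a ^ (2 * p) := by rw [pow_mul, pow_mul, sq_abs]
  have h6 : |b| ^ (2 * p) = b ^ (2 * p) := by rw [pow_mul, pow_mul, sq_abs]
  rw [h5, h6] at h2
  linarith

theorem scal_sum (a b : ℝ) (p : ℕ) :
    2 * ∑ q ∈ range (2 * p + 1), a ^ q * b ^ (2 * p - q) ≤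
      (2 * p + 1) * (a ^ (2 * p) + b ^ (2 * p)) := by
  have h1 : ∑ q ∈ range (2 * p + 1), a ^ q * b ^ (2 * p - q) =
      ∑ q ∈ range (2 * p + 1), a ^ (2 * p - q) * b ^ q := by
    rw [← sum_range_reflect]
    refine sum_congr rfl fun q hq => ?_
    have hq' := mem_range.1 hq
    have e1 : 2 * p + 1 - 1 - q = 2 * p - q := by omega
    have e2 : 2 * p - (2 * p - q) = q := by omega
    rw [e1, e2]
  have h2 : 2 * ∑ q ∈ range (2 * p + 1), a ^ q * b ^ (2 * p - q) =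
      ∑ q ∈ range (2 * p + 1), (a ^ q * b ^ (2 * p - q) + a ^ (2 * p - q) * b ^ q) := by
    rw [sum_add_distrib, ← h1]
    ring
  rw [h2]
  calc ∑ q ∈ range (2 * p + 1), (a ^ q * b ^ (2 * p - q) + a ^ (2 * p - q) * b ^ q)
      ≤ ∑ q ∈ range (2 * p + 1), (a ^ (2 * p) + b ^ (2 * p)) := by
        refine sum_le_sum fun q hq => scal a b ?_
        have hq' := mem_range.1 hq
        omega
    _ = (2 * p + 1) * (a ^ (2 * p) + b ^ (2 * p)) := by
        rw [sum_const, card_range, nsmul_eq_mul]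
        push_cast
        ring

variable {ι : Type} [Fintype ι] [DecidableEq ι]

/-- diagonalisation -/
theorem diag {X : Matrix ι ι ℝ} (hX : Xᵀ = X) : ∃ (U : Matrix ι ι ℝ) (l : ι → ℝ),
    U * Uᵀ = 1 ∧ Uᵀ * U = 1 ∧ ∀ q : ℕ, X ^ q = U * diagonal (fun i => l i ^ q) * Uᵀ := by
  have hH : X.IsHermitian := by
    rw [Matrix.IsHermitian, Matrix.conjTranspose_eq_transpose_of_trivial, hX]
  set U : Matrix ι ι ℝ := (hH.eigenvectorUnitary : Matrix ι ι ℝ) with hU
  have h1 : U * Uᵀ = 1 := by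
    have := Matrix.mem_unitaryGroup_iff.1 hH.eigenvectorUnitary.2
    rwa [Matrix.star_eq_conjTranspose, Matrix.conjTranspose_eq_transpose_of_trivial] at this
  have h2 : Uᵀ * U = 1 := by
    have := Matrix.mem_unitaryGroup_iff'.1 hH.eigenvectorUnitary.2
    rwa [Matrix.star_eq_conjTranspose, Matrix.conjTranspose_eq_transpose_of_trivial] at this
  have h3 : X = U * diagonal hH.eigenvalues * Uᵀ := by
    have := hH.spectral_theorem
    rw [Unitary.conjStarAlgAut_apply] at this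
    rw [← Matrix.conjTranspose_eq_transpose_of_trivial, ← Matrix.star_eq_conjTranspose]
    exact this
  refine ⟨U, hH.eigenvalues, h1, h2, fun q => ?_⟩
  induction q with
  | zero => simp [h1]
  | succ q ih =>
    rw [pow_succ, ih]
    nth_rewrite 2 [h3]
    calc U * diagonal (fun i => hH.eigenvalues i ^ q) * Uᵀ * (U * diagonal hH.eigenvalues * Uᵀ)
        = U * diagonal (fun i => hH.eigenvalues i ^ q) * (Uᵀ * U) * diagonal hH.eigenvalues * Uᵀ := by
          simp only [Matrix.mul_assoc]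
      _ = U * (diagonal (fun i => hH.eigenvalues i ^ q) * diagonal hH.eigenvalues) * Uᵀ := by
          rw [h2, Matrix.mul_one]
          simp only [Matrix.mul_assoc]
      _ = _ := by
          rw [Matrix.diagonal_mul_diagonal]
          simp only [pow_succ]

theorem tr_formula {X Y : Matrix ι ι ℝ} (hX : Xᵀ = X) (hY : Yᵀ = Y) (D : Matrix ι ι ℝ)
    (hD : Dᵀ = D) : ∃ (l m : ι → ℝ) (G : ι → ι → ℝ), ∀ q r : ℕ,
      (D * X ^ q * D * Y ^ r).trace = ∑ i, ∑ j, l i ^ q * m j ^ r * G i j ^ 2 := by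
  obtain ⟨U, l, hU1, hU2, hU⟩ := diag hX
  obtain ⟨W, m, hW1, hW2, hW⟩ := diag hY
  refine ⟨l, m, Uᵀ * D * W, fun q r => ?_⟩
  rw [hU q, hW r]
  set P := diagonal (fun i => l i ^ q) with hP
  set Q := diagonal (fun i => m i ^ r) with hQ
  set G := Uᵀ * D * W with hG
  have hGt : Gᵀ = Wᵀ * D * U := by
    rw [hG, Matrix.transpose_mul, Matrix.transpose_mul, Matrix.transpose_transpose, hD,
      Matrix.mul_assoc]
  have h1 : (D * (U * P * Uᵀ) * D * (W * Q * Wᵀ)).trace = (Gᵀ * P * G * Q).trace := by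
    rw [hGt, hG]
    calc (D * (U * P * Uᵀ) * D * (W * Q * Wᵀ)).trace
        = ((D * U * P * Uᵀ * D * W * Q) * Wᵀ).trace := by simp only [Matrix.mul_assoc]
      _ = (Wᵀ * (D * U * P * Uᵀ * D * W * Q)).trace := Matrix.trace_mul_comm _ _
      _ = _ := by simp only [Matrix.mul_assoc]
  rw [h1, Matrix.trace, sum_comm]
  refine sum_congr rfl fun j _ => ?_
  rw [Matrix.diag_apply, hQ, Matrix.mul_diagonal, Matrix.mul_apply, sum_mul]
  refine sum_congr rfl fun i _ => ?_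
  rw [hP, Matrix.mul_diagonal, Matrix.transpose_apply]
  ring

/-- the trace inequality -/
theorem tr_ineq {X Y D : Matrix ι ι ℝ} (hX : Xᵀ = X) (hY : Yᵀ = Y) (hD : Dᵀ = D) (p : ℕ) :
    2 * ∑ q ∈ range (2 * p + 1), (D * X ^ q * D * Y ^ (2 * p - q)).trace ≤
      (2 * p + 1) * ((D * X ^ (2 * p) * D).trace + (D * D * Y ^ (2 * p)).trace) := by
  obtain ⟨l, m, G, h⟩ := tr_formula hX hY D hD
  have h1 : (D * X ^ (2 * p) * D).trace = ∑ i, ∑ j, l i ^ (2 * p) * G i j ^ 2 := by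
    have := h (2 * p) 0
    rw [pow_zero, Matrix.mul_one] at this
    rw [this]
    refine sum_congr rfl fun i _ => sum_congr rfl fun j _ => ?_
    rw [pow_zero, mul_one]
  have h2 : (D * D * Y ^ (2 * p)).trace = ∑ i, ∑ j, m j ^ (2 * p) * G i j ^ 2 := by
    have := h 0 (2 * p)
    rw [pow_zero, Matrix.mul_one] at this
    rw [this]
    refine sum_congr rfl fun i _ => sum_congr rfl fun j _ => ?_
    rw [pow_zero, one_mul]
  rw [h1, h2]
  have h3 : ∑ q ∈ range (2 * p + 1), (D * X ^ q * D * Y ^ (2 * p - q)).trace =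
      ∑ i, ∑ j, (∑ q ∈ range (2 * p + 1), l i ^ q * m j ^ (2 * p - q)) * G i j ^ 2 := by
    rw [sum_congr rfl fun q _ => h q (2 * p - q), sum_comm]
    refine sum_congr rfl fun i _ => ?_
    rw [sum_comm]
    refine sum_congr rfl fun j _ => ?_
    rw [sum_mul]
  rw [h3, mul_sum, ← sum_add_distrib, mul_sum]
  refine sum_le_sum fun i _ => ?_
  rw [mul_sum, ← sum_add_distrib, mul_sum]
  refine sum_le_sum fun j _ => ?_
  have h4 := scal_sum (l i) (m j) p
  have h5 : 0 ≤ G i j ^ 2 := sq_nonneg _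
  nlinarith [mul_le_mul_of_nonneg_right h4 h5]

/-- telescoping -/
theorem tele (X Y : Matrix ι ι ℝ) (k : ℕ) :
    X ^ k - Y ^ k = ∑ q ∈ range k, X ^ q * (X - Y) * Y ^ (k - 1 - q) := by
  induction k with
  | zero => simp
  | succ k ih =>
    rw [sum_range_succ, Nat.add_sub_cancel, Nat.sub_self, pow_zero, mul_one]
    have h1 : ∑ q ∈ range k, X ^ q * (X - Y) * Y ^ (k - q) = (X ^ k - Y ^ k) * Y := by
      rw [ih, sum_mul]
      refine sum_congr rfl fun q hq => ?_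
      have hq' := mem_range.1 hq
      have e : k - q = (k - 1 - q) + 1 := by omega
      rw [e, pow_succ]
      simp only [mul_assoc]
    rw [h1]
    noncomm_ring

theorem tr_step {X Y D : Matrix ι ι ℝ} (hX : Xᵀ = X) (hY : Yᵀ = Y) (hD : Dᵀ = D)
    (hXY : X - Y = D) (p : ℕ) :
    2 * (D * (X ^ (2 * p + 1) - Y ^ (2 * p + 1))).trace ≤
      (2 * p + 1) * ((D * X ^ (2 * p) * D).trace + (D * D * Y ^ (2 * p)).trace) := by
  refine le_trans (le_of_eq ?_) (tr_ineq hX hY hD p)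
  rw [tele, hXY, Matrix.mul_sum, Matrix.trace_sum]
  congr 1
  refine sum_congr rfl fun q _ => ?_
  have e : 2 * p + 1 - 1 - q = 2 * p - q := by omega
  rw [e]
  simp only [Matrix.mul_assoc]

/-- the norm is bounded by a high trace -/
theorem norm_le_trace {X : Matrix ι ι ℝ} (hX : Xᵀ = X) (p : ℕ) (hp : 1 ≤ p) (T : ℝ) (hT : 0 ≤ T)
    (h : (X ^ (2 * p)).trace ≤ T ^ p) (x : ι → ℝ) :
    ∑ i, (X *ᵥ x) i ^ 2 ≤ T * ∑ i, x i ^ 2 := by
  obtain ⟨U, l, hU1, hU2, hU⟩ := diag hX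
  have h1 : (X ^ (2 * p)).trace = ∑ i, l i ^ (2 * p) := by
    rw [hU, Matrix.trace_mul_comm, ← Matrix.mul_assoc, hU2, Matrix.one_mul, Matrix.trace_diagonal]
  have hl : ∀ i, l i ^ 2 ≤ T := by
    intro i
    have h2 : (l i ^ 2) ^ p ≤ T ^ p := by
      rw [← pow_mul]
      refine le_trans ?_ h
      rw [h1]
      exact single_le_sum (f := fun i => l i ^ (2 * p))
        (fun j _ => by rw [pow_mul]; positivity) (mem_univ i)
    exact (pow_le_pow_iff_left₀ (sq_nonneg _) hT (by omega)).1 h2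
  have hsum : ∀ (V : Matrix ι ι ℝ), Vᵀ * V = 1 → ∀ y : ι → ℝ, ∑ i, (V *ᵥ y) i ^ 2 = ∑ i, y i ^ 2 := by
    intro V hV y
    have e1 : ∀ z : ι → ℝ, ∑ i, z i ^ 2 = z ⬝ᵥ z := by
      intro z; unfold dotProduct; exact sum_congr rfl fun i _ => sq _
    rw [e1, e1, Matrix.dotProduct_mulVec, Matrix.vecMul_mulVec, hV, Matrix.vecMul_one]
  set y := Uᵀ *ᵥ x with hy
  have hX1 : X *ᵥ x = U *ᵥ (fun i => l i * y i) := by
    have e1 : X = U * diagonal l * Uᵀ := by
      have := hU 1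
      simpa using this
    nth_rewrite 1 [e1]
    rw [← Matrix.mulVec_mulVec, ← Matrix.mulVec_mulVec, ← hy]
    congr 1
    funext i
    rw [Matrix.mulVec_diagonal]
  rw [hX1, hsum U hU2]
  have h3 : ∑ i, y i ^ 2 = ∑ i, x i ^ 2 := by
    rw [hy]
    apply hsum
    rw [Matrix.transpose_transpose, hU1]
  rw [← h3, mul_sum]
  refine sum_le_sum fun i _ => ?_
  rw [mul_pow]
  exact mul_le_mul_of_nonneg_right (hl i) (sq_nonneg _)

end Pool.Agent.W69.NI
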